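import Pool.Agent.Helper34.PN.Defs

/-!
Conditional averages over the classes of equal statuses, and the energy.
-/

namespace Pool.Agent.Helper34.PN

open Finset

theorem mem_cls {Ω α : Type} [Fintype Ω] {s : Ω → α → Fin 3} {S : Finset α} {ω ω' : Ω} :
    ω' ∈ cls s S ω ↔ ∀ x ∈ S, s ω' x = s ω x := by
  unfold cls
  simp

theorem self_mem_cls {Ω α : Type} [Fintype Ω] (s : Ω → α → Fin 3) (S : Finset α) (ω : Ω) :
    ω ∈ cls s S ω := mem_cls.2 fun _ _ => rfl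

theorem cls_card_pos {Ω α : Type} [Fintype Ω] (s : Ω → α → Fin 3) (S : Finset α) (ω : Ω) :
    0 < (cls s S ω).card := card_pos.2 ⟨ω, self_mem_cls s S ω⟩

theorem cls_symm {Ω α : Type} [Fintype Ω] {s : Ω → α → Fin 3} {S : Finset α} {ω ω' : Ω}
    (h : ω' ∈ cls s S ω) : ω ∈ cls s S ω' :=
  mem_cls.2 fun x hx => (mem_cls.1 h x hx).symm

theorem cls_eq {Ω α : Type} [Fintype Ω] {s : Ω → α → Fin 3} {S : Finset α} {ω ω' : Ω}
    (h : ∀ x ∈ S, s ω' x = s ω x) : cls s S ω' = cls s S ω := by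
  ext ω''
  rw [mem_cls, mem_cls]
  constructor
  · intro h' x hx
    rw [h' x hx, h x hx]
  · intro h' x hx
    rw [h' x hx, h x hx]

theorem avg_meas {Ω α : Type} [Fintype Ω] (s : Ω → α → Fin 3) (S : Finset α) (φ : Ω → ℝ)
    (ω ω' : Ω) (h : ∀ x ∈ S, s ω' x = s ω x) : avg s S φ ω' = avg s S φ ω := by
  unfold avg
  rw [cls_eq h]

theorem avg_orth {Ω α : Type} [Fintype Ω] (s : Ω → α → Fin 3) (S : Finset α) (φ ψ : Ω → ℝ)
    (hψ : ∀ ω ω' : Ω, (∀ x ∈ S, s ω' x = s ω x) → ψ ω' = ψ ω) :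
    ∑ ω : Ω, avg s S φ ω * ψ ω = ∑ ω : Ω, φ ω * ψ ω := by
  have h1 : ∀ ω : Ω, avg s S φ ω * ψ ω
      = ∑ ω' ∈ cls s S ω, φ ω' * ψ ω / ((cls s S ω).card : ℝ) := by
    intro ω
    unfold avg
    rw [sum_div, sum_mul]
    exact sum_congr rfl fun ω' _ => by ring
  rw [sum_congr rfl fun ω _ => h1 ω]
  have h2 : ∑ ω : Ω, ∑ ω' ∈ cls s S ω, φ ω' * ψ ω / ((cls s S ω).card : ℝ)
      = ∑ ω' : Ω, ∑ ω ∈ cls s S ω', φ ω' * ψ ω / ((cls s S ω).card : ℝ) := by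
    refine sum_comm' ?_
    intro ω ω'
    constructor
    · rintro ⟨_, h⟩
      exact ⟨cls_symm h, mem_univ _⟩
    · rintro ⟨h, _⟩
      exact ⟨mem_univ _, cls_symm h⟩
  rw [h2]
  refine sum_congr rfl fun ω' _ => ?_
  have h3 : ∑ ω ∈ cls s S ω', φ ω' * ψ ω / ((cls s S ω).card : ℝ)
      = ∑ ω ∈ cls s S ω', φ ω' * ψ ω' / ((cls s S ω').card : ℝ) := by
    refine sum_congr rfl fun ω hω => ?_
    have h4 := mem_cls.1 hω
    rw [cls_eq h4, hψ ω' ω h4]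
  rw [h3, sum_const, nsmul_eq_mul]
  have h5 : ((cls s S ω').card : ℝ) ≠ 0 := by
    have := cls_card_pos s S ω'
    positivity
  field_simp

theorem avg_pyth {Ω α : Type} [Fintype Ω] (s : Ω → α → Fin 3) (S S' : Finset α) (hS : S ⊆ S')
    (φ : Ω → ℝ) :
    ∑ ω : Ω, (avg s S' φ ω) ^ 2 - ∑ ω : Ω, (avg s S φ ω) ^ 2
      = ∑ ω : Ω, (avg s S' φ ω - avg s S φ ω) ^ 2 := by
  have h1 : ∑ ω : Ω, avg s S' φ ω * avg s S φ ω = ∑ ω : Ω, φ ω * avg s S φ ω :=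
    avg_orth s S' φ (avg s S φ) fun ω ω' h => avg_meas s S φ ω ω' fun x hx => h x (hS hx)
  have h2 : ∑ ω : Ω, avg s S φ ω * avg s S φ ω = ∑ ω : Ω, φ ω * avg s S φ ω :=
    avg_orth s S φ (avg s S φ) fun ω ω' h => avg_meas s S φ ω ω' h
  have h3 : ∑ ω : Ω, (avg s S' φ ω - avg s S φ ω) ^ 2
      = ∑ ω : Ω, (avg s S' φ ω) ^ 2 - 2 * ∑ ω : Ω, avg s S' φ ω * avg s S φ ω
        + ∑ ω : Ω, (avg s S φ ω) ^ 2 := by
    rw [mul_sum, ← sum_sub_distrib, ← sum_add_distrib]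
    exact sum_congr rfl fun ω _ => by ring
  have h4 : ∑ ω : Ω, (avg s S φ ω) ^ 2 = ∑ ω : Ω, avg s S φ ω * avg s S φ ω :=
    sum_congr rfl fun ω _ => by ring
  rw [h3, h1, h4, h2]
  ring

theorem energy_diff {Ω α : Type} [Fintype Ω] (s : Ω → α → Fin 3) (x : α) (S S' : Finset α)
    (hS : S ⊆ S') :
    energy s x S' - energy s x S
      = ∑ a : Fin 3, ∑ ω : Ω, (avg s S' (ind s x a) ω - avg s S (ind s x a) ω) ^ 2 := by
  unfold energy
  rw [← sum_sub_distrib]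
  exact sum_congr rfl fun a _ => avg_pyth s S S' hS _

theorem energy_mono {Ω α : Type} [Fintype Ω] (s : Ω → α → Fin 3) (x : α) (S S' : Finset α)
    (hS : S ⊆ S') : energy s x S ≤ energy s x S' := by
  rw [← sub_nonneg, energy_diff s x S S' hS]
  exact sum_nonneg fun _ _ => sum_nonneg fun _ _ => sq_nonneg _

theorem energy_nonneg {Ω α : Type} [Fintype Ω] (s : Ω → α → Fin 3) (x : α) (S : Finset α) :
    0 ≤ energy s x S :=
  sum_nonneg fun _ _ => sum_nonneg fun _ _ => sq_nonneg _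

theorem avg_ind_nonneg {Ω α : Type} [Fintype Ω] (s : Ω → α → Fin 3) (x : α) (S : Finset α)
    (a : Fin 3) (ω : Ω) : 0 ≤ avg s S (ind s x a) ω := by
  unfold avg
  refine div_nonneg (sum_nonneg fun ω' _ => ?_) (Nat.cast_nonneg _)
  unfold ind
  split_ifs
  · exact zero_le_one
  · exact le_rfl

theorem avg_ind_sum {Ω α : Type} [Fintype Ω] (s : Ω → α → Fin 3) (x : α) (S : Finset α)
    (ω : Ω) : ∑ a : Fin 3, avg s S (ind s x a) ω = 1 := by
  unfold avg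
  rw [← sum_div, sum_comm]
  have h1 : ∀ ω' : Ω, ∑ a : Fin 3, ind s x a ω' = 1 := by
    intro ω'
    unfold ind
    simp
  rw [sum_congr rfl fun ω' _ => h1 ω', sum_const, nsmul_eq_mul, mul_one]
  have h5 : ((cls s S ω).card : ℝ) ≠ 0 := by
    have := cls_card_pos s S ω
    positivity
  exact div_self h5

theorem energy_le {Ω α : Type} [Fintype Ω] (s : Ω → α → Fin 3) (x : α) (S : Finset α) :
    energy s x S ≤ (Fintype.card Ω : ℝ) := by
  unfold energy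
  rw [sum_comm]
  have h1 : ∀ ω : Ω, ∑ a : Fin 3, (avg s S (ind s x a) ω) ^ 2 ≤ 1 := by
    intro ω
    have h2 := avg_ind_sum s x S ω
    have h3 : ∀ a : Fin 3, avg s S (ind s x a) ω ≤ 1 := by
      intro a
      rw [← h2]
      exact single_le_sum (f := fun a => avg s S (ind s x a) ω)
        (fun b _ => avg_ind_nonneg s x S b ω) (mem_univ a)
    calc ∑ a : Fin 3, (avg s S (ind s x a) ω) ^ 2
        ≤ ∑ a : Fin 3, avg s S (ind s x a) ω := by
          refine sum_le_sum fun a _ => ?_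
          have h4 := avg_ind_nonneg s x S a ω
          nlinarith [h3 a]
      _ = 1 := h2
  calc ∑ ω : Ω, ∑ a : Fin 3, (avg s S (ind s x a) ω) ^ 2 ≤ ∑ ω : Ω, (1 : ℝ) :=
        sum_le_sum fun ω _ => h1 ω
    _ = (Fintype.card Ω : ℝ) := by simp

end Pool.Agent.Helper34.PN
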