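import Pool.Agent.Helper34.PN.ONE

/-!
Linear nets for families with a finite two-colour threshold.
-/

namespace Pool.Agent.Helper34.PN

open Finset

theorem Good.mono1 {α : Type} [DecidableEq α] {X A : Finset α} {H H' : Finset (Finset α)}
    {m : ℕ} (h : Good X H m) (hA : A ⊆ X) (hH : H' ⊆ H) : Good A H' m := by
  intro Y hY
  obtain ⟨R, hR, hR2⟩ := h Y (hY.trans hA)
  exact ⟨R, hR, fun E hE hm => hR2 E (hH hE) hm⟩

theorem Good.image_inter {α : Type} [DecidableEq α] {X : Finset α} {H : Finset (Finset α)}
    {m : ℕ} (h : Good X H m) : Good X (H.image (fun E => E ∩ X)) m := by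
  intro Y hY
  obtain ⟨R, hR, hR2⟩ := h Y hY
  refine ⟨R, hR, fun e he hm => ?_⟩
  obtain ⟨E, hE, rfl⟩ := mem_image.1 he
  have h1 : E ∩ X ∩ Y = E ∩ Y := by rw [inter_assoc, inter_eq_right.2 hY]
  have h2 : E ∩ X ∩ R = E ∩ R := by rw [inter_assoc, inter_eq_right.2 (hR.trans hY)]
  have h3 : E ∩ X ∩ (Y \ R) = E ∩ (Y \ R) := by
    rw [inter_assoc, inter_eq_right.2 (sdiff_subset.trans hY)]
  rw [h1] at hm
  rw [h2, h3]
  exact hR2 E hE hm

theorem nets (m : ℕ) (hm : 2 ≤ m) :
    ∃ C : ℕ, 1 ≤ C ∧ ∀ (α : Type) [DecidableEq α] (X : Finset α) (H : Finset (Finset α))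
      (s : ℕ), 1 ≤ s → Good X H m → (∀ E ∈ H, s ≤ (E ∩ X).card) →
      ∃ T : Finset α, T ⊆ X ∧ s * T.card ≤ C * X.card ∧ ∀ E ∈ H, (E ∩ T).Nonempty := by
  classical
  obtain ⟨s0, c3, hone⟩ := one_scale m hm
  refine ⟨s0 + 3 * c3 + 1, by omega, ?_⟩
  intro α _
  set C : ℕ := s0 + 3 * c3 + 1 with hC
  have key : ∀ n j : ℕ, ∀ (X : Finset α) (H : Finset (Finset α)) (s : ℕ),
      X.card ≤ n → X.card + 1 - s ≤ j → 1 ≤ s → Good X H m → (∀ E ∈ H, s ≤ (E ∩ X).card) →
      ∃ T : Finset α, T ⊆ X ∧ s * T.card ≤ C * X.card ∧ ∀ E ∈ H, (E ∩ T).Nonempty := by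
    intro n
    induction n with
    | zero =>
      intro j X H s hX _ hs _ hH
      refine ⟨∅, empty_subset _, by simp, ?_⟩
      intro E hE
      have h1 := hH E hE
      have h2 : (E ∩ X).card ≤ X.card := card_le_card inter_subset_right
      omega
    | succ n ihn =>
      intro j
      induction j with
      | zero =>
        intro X H s hX hj hs _ hH
        refine ⟨∅, empty_subset _, by simp, ?_⟩
        intro E hE
        have h1 := hH E hE
        have h2 : (E ∩ X).card ≤ X.card := card_le_card inter_subset_right
        omega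
      | succ j ihj =>
        intro X H s hX hj hs hG hH
        by_cases hss : s < s0
        · refine ⟨X, Subset.refl _, Nat.mul_le_mul_right _ (by omega), ?_⟩
          intro E hE
          rw [← card_pos]
          have := hH E hE
          omega
        · push Not at hss
          -- the big members
          obtain ⟨T1, hT1X, hT1c, hT1⟩ := ihj X (H.filter (fun E => 2 * s ≤ (E ∩ X).card))
            (2 * s) hX (by omega) (by omega) (hG.mono1 (Subset.refl _) (filter_subset _ _))
            (fun E hE => (mem_filter.1 hE).2)
          -- the members of this scale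
          set H0 : Finset (Finset α) :=
            (H.filter (fun E => (E ∩ X).card < 2 * s)).image (fun E => E ∩ X) with hH0
          have hG0 : Good X H0 m :=
            (hG.mono1 (Subset.refl _) (filter_subset _ _)).image_inter
          obtain ⟨Sat, T3, hSat, hT3X, hSatc, hT3c, hT3⟩ := hone α X H0 s hss
            (fun E hE => by
              obtain ⟨E', _, rfl⟩ := mem_image.1 hE
              exact inter_subset_right) hG0
            (fun E hE => by
              obtain ⟨E', hE', rfl⟩ := mem_image.1 hE
              have h1 := mem_filter.1 hE'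
              exact ⟨hH E' h1.1, h1.2.le⟩)
          obtain ⟨T2, hT2S, hT2c, hT2⟩ := ihn (Sat.card + 1 - (s + 1) / 2) Sat
            (H0.filter (fun E => s ≤ 2 * (E ∩ Sat).card)) ((s + 1) / 2) (by omega) le_rfl
            (by omega) (hG0.mono1 hSat (filter_subset _ _))
            (fun E hE => by
              have := (mem_filter.1 hE).2
              omega)
          refine ⟨T1 ∪ T2 ∪ T3, union_subset (union_subset hT1X (hT2S.trans hSat)) hT3X, ?_, ?_⟩
          · have hc1 : (T1 ∪ T2 ∪ T3).card ≤ T1.card + T2.card + T3.card :=
              (card_union_le _ _).trans (Nat.add_le_add_right (card_union_le _ _) _)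
            have hc2 : s * (T1 ∪ T2 ∪ T3).card ≤ s * T1.card + s * T2.card + s * T3.card := by
              calc s * (T1 ∪ T2 ∪ T3).card ≤ s * (T1.card + T2.card + T3.card) :=
                    Nat.mul_le_mul_left _ hc1
                _ = s * T1.card + s * T2.card + s * T3.card := by ring
            have hc3 : s * T2.card ≤ 2 * ((s + 1) / 2 * T2.card) := by
              have : s ≤ 2 * ((s + 1) / 2) := by omega
              calc s * T2.card ≤ 2 * ((s + 1) / 2) * T2.card := Nat.mul_le_mul_right _ this
                _ = 2 * ((s + 1) / 2 * T2.card) := by ring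
            have hc4 : 2 * (s * T1.card) ≤ C * X.card := by
              calc 2 * (s * T1.card) = 2 * s * T1.card := by ring
                _ ≤ C * X.card := hT1c
            have hc5 : C * (32 * Sat.card) ≤ C * X.card := Nat.mul_le_mul_left _ hSatc
            have hc6 : 3 * (c3 * X.card) ≤ C * X.card := by
              calc 3 * (c3 * X.card) = 3 * c3 * X.card := by ring
                _ ≤ C * X.card := Nat.mul_le_mul_right _ (by omega)
            have hc7 : C * (32 * Sat.card) = 32 * (C * Sat.card) := by ring
            rw [hc7] at hc5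
            generalize s * (T1 ∪ T2 ∪ T3).card = a at *
            generalize s * T1.card = a1 at *
            generalize s * T2.card = a2 at *
            generalize s * T3.card = a3 at *
            generalize (s + 1) / 2 * T2.card = a4 at *
            generalize C * X.card = b at *
            generalize C * Sat.card = b1 at *
            generalize c3 * X.card = b2 at *
            omega
          · intro E hE
            by_cases hbig : 2 * s ≤ (E ∩ X).card
            · obtain ⟨y, hy⟩ := hT1 E (mem_filter.2 ⟨hE, hbig⟩)
              have hy' := mem_inter.1 hy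
              exact ⟨y, mem_inter.2 ⟨hy'.1, mem_union_left _ (mem_union_left _ hy'.2)⟩⟩
            · push Not at hbig
              have hE0 : E ∩ X ∈ H0 := mem_image.2 ⟨E, mem_filter.2 ⟨hE, hbig⟩, rfl⟩
              rcases hT3 _ hE0 with h | h
              · obtain ⟨y, hy⟩ := h
                have hy' := mem_inter.1 hy
                exact ⟨y, mem_inter.2 ⟨(mem_inter.1 hy'.1).1, mem_union_right _ hy'.2⟩⟩
              · obtain ⟨y, hy⟩ := hT2 _ (mem_filter.2 ⟨hE0, h⟩)
                have hy' := mem_inter.1 hy
                exact ⟨y, mem_inter.2 ⟨(mem_inter.1 hy'.1).1,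
                  mem_union_left _ (mem_union_right _ hy'.2)⟩⟩
  intro X H s hs hG hH
  exact key X.card (X.card + 1 - s) X H s le_rfl le_rfl hs hG hH

end Pool.Agent.Helper34.PN
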