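import Mathlib

/-!
Linear nets from a finite two-colour threshold (problem MP_08bd45_co): common definitions.
-/

namespace Pool.Agent.Helper34.PN

open Finset

/-- `Good X H m`: every `Y ⊆ X` has a 2-colouring (colour classes `R` and `Y \ R`) such that
every member of `H` with at least `m` points in `Y` contains points of both colours. -/
def Good {α : Type} [DecidableEq α] (X : Finset α) (H : Finset (Finset α)) (m : ℕ) : Prop :=
  ∀ Y : Finset α, Y ⊆ X → ∃ R : Finset α, R ⊆ Y ∧
    ∀ E ∈ H, m ≤ (E ∩ Y).card → (E ∩ R).Nonempty ∧ (E ∩ (Y \ R)).Nonempty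

/-- the class of `ω`: all `ω'` with the same statuses on `S` -/
def cls {Ω α : Type} [Fintype Ω] (s : Ω → α → Fin 3) (S : Finset α) (ω : Ω) : Finset Ω :=
  Finset.univ.filter (fun ω' => ∀ x ∈ S, s ω' x = s ω x)

/-- the average of `φ` over the class of `ω` (conditional expectation) -/
noncomputable def avg {Ω α : Type} [Fintype Ω] (s : Ω → α → Fin 3) (S : Finset α)
    (φ : Ω → ℝ) (ω : Ω) : ℝ :=
  (∑ ω' ∈ cls s S ω, φ ω') / ((cls s S ω).card : ℝ)

/-- indicator of `s ω x = a` -/
noncomputable def ind {Ω α : Type} (s : Ω → α → Fin 3) (x : α) (a : Fin 3) (ω : Ω) : ℝ :=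
  if s ω x = a then 1 else 0

/-- energy (not normalised) of the status of `x` given the statuses on `S` -/
noncomputable def energy {Ω α : Type} [Fintype Ω] (s : Ω → α → Fin 3) (x : α)
    (S : Finset α) : ℝ :=
  ∑ a : Fin 3, ∑ ω : Ω, (avg s S (ind s x a) ω) ^ 2

/-- weight of a random subset `V` of `Z` of density `η` -/
noncomputable def wt {α : Type} (Z : Finset α) (η : ℝ) (V : Finset α) : ℝ :=
  η ^ V.card * (1 - η) ^ (Z.card - V.card)

end Pool.Agent.Helper34.PN
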