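import Pool.Agent.Helper34.PN.NETS
import Pool.Agent.Helper17.PN_GAP

/-!
Weighted form of the linear nets.
-/

namespace Pool.Agent.Helper34.PN

open Finset

theorem gap (m : ℕ) (hm : 2 ≤ m) :
    ∃ C : ℕ, 1 ≤ C ∧ ∀ (α : Type) [DecidableEq α] (X : Finset α) (H : Finset (Finset α))
      (w : α → ℝ), Good X H m → (∀ x ∈ X, 0 ≤ w x) →
      ∃ T : Finset α, T ⊆ X ∧ (T.card : ℝ) ≤ C * ∑ x ∈ X, w x ∧
        ∀ E ∈ H, 1 ≤ ∑ x ∈ X.filter (fun x => x ∈ E), w x → (E ∩ T).Nonempty :=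
  gap_of_nets m (nets m hm)

end Pool.Agent.Helper34.PN
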