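import Pool.Agent.Helper55.PN_WTS

/-!
Averaging a monotone function over a random set which contains one of many disjoint blocks.
-/

namespace Pool.Agent.Helper34.PN

open Finset

theorem vavg {α : Type} [DecidableEq α] (Z : Finset α) (B : Finset (Finset α)) (k K : ℕ)
    (η : ℝ) (h0 : 0 < η) (h1 : η ≤ 1)
    (hB : ∀ b ∈ B, b ⊆ Z ∧ b.card = k)
    (hdisj : ∀ b ∈ B, ∀ b' ∈ B, b ≠ b' → Disjoint b b')
    (hcard : B.card ≤ K) (hK : 1 ≤ (K : ℝ) * η ^ k)
    (G : Finset α → ℝ) (hG0 : ∀ V, 0 ≤ G V) (hGm : ∀ U V, U ⊆ V → G U ≤ G V) :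
    ∑ b ∈ B, G b ≤ 2 * (K : ℝ) * ∑ V ∈ Z.powerset, wt Z η V * G V := by
  classical
  set p : ℝ := η ^ k with hp
  have hp0 : 0 < p := by positivity
  have hK0 : (0 : ℝ) ≤ K := Nat.cast_nonneg _
  set θ : ℝ := 1 / (1 + K * p) with hθ
  have hden : 0 < 1 + (K : ℝ) * p := by positivity
  have hθ0 : 0 < θ := by positivity
  -- pointwise bound
  have hpt : ∀ V : Finset α, (∑ b ∈ B.filter (fun b => b ⊆ V), G b)
      * (2 * θ - θ ^ 2 * ((B.filter (fun b => b ⊆ V)).card : ℝ)) ≤ G V := by
    intro V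
    set J := B.filter (fun b => b ⊆ V) with hJ
    have hS0 : 0 ≤ ∑ b ∈ J, G b := sum_nonneg fun b _ => hG0 b
    have hS1 : ∑ b ∈ J, G b ≤ (J.card : ℝ) * G V := by
      calc ∑ b ∈ J, G b ≤ ∑ _b ∈ J, G V :=
            sum_le_sum fun b hb => hGm b V (mem_filter.1 hb).2
        _ = (J.card : ℝ) * G V := by rw [sum_const, nsmul_eq_mul]
    rcases Nat.eq_zero_or_pos J.card with hJ0 | hJpos
    · have : J = ∅ := card_eq_zero.1 hJ0
      rw [this]
      simpa using hG0 V
    · have hn : (0 : ℝ) < J.card := by exact_mod_cast hJpos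
      have h2 : 2 * θ - θ ^ 2 * (J.card : ℝ) ≤ 1 / (J.card : ℝ) := by
        rw [le_div_iff₀ hn]
        nlinarith [sq_nonneg (θ * (J.card : ℝ) - 1)]
      calc (∑ b ∈ J, G b) * (2 * θ - θ ^ 2 * (J.card : ℝ))
          ≤ (∑ b ∈ J, G b) * (1 / (J.card : ℝ)) := mul_le_mul_of_nonneg_left h2 hS0
        _ ≤ ((J.card : ℝ) * G V) * (1 / (J.card : ℝ)) :=
            mul_le_mul_of_nonneg_right hS1 (by positivity)
        _ = G V := by
            field_simp
  have hpair : ∀ b ∈ B, ∀ b' ∈ B,
      ∑ V ∈ Z.powerset, wt Z η V * (if b ⊆ V then (if b' ⊆ V then G b else 0) else 0)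
        = η ^ (b ∪ b').card * G b := by
    intro b hb b' hb'
    rw [← wt_sum_superset Z (b ∪ b') (union_subset (hB b hb).1 (hB b' hb').1) η, sum_filter,
      sum_mul]
    refine sum_congr rfl fun V _ => ?_
    by_cases hbV : b ⊆ V
    · by_cases hbV' : b' ⊆ V
      · rw [if_pos hbV, if_pos hbV', if_pos (union_subset hbV hbV')]
      · rw [if_pos hbV, if_neg hbV', if_neg fun h => hbV' (subset_union_right.trans h)]
        ring
    · rw [if_neg hbV, if_neg fun h => hbV (subset_union_left.trans h)]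
      ring
  have hS1 : ∑ V ∈ Z.powerset, wt Z η V * ∑ b ∈ B.filter (fun b => b ⊆ V), G b
      = p * ∑ b ∈ B, G b := by
    calc ∑ V ∈ Z.powerset, wt Z η V * ∑ b ∈ B.filter (fun b => b ⊆ V), G b
        = ∑ V ∈ Z.powerset, ∑ b ∈ B, wt Z η V *
            (if b ⊆ V then (if b ⊆ V then G b else 0) else 0) := by
          refine sum_congr rfl fun V _ => ?_
          rw [sum_filter, mul_sum]
          refine sum_congr rfl fun b _ => ?_
          by_cases hbV : b ⊆ V
          · simp [hbV]
          · simp [hbV]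
      _ = ∑ b ∈ B, ∑ V ∈ Z.powerset, wt Z η V *
            (if b ⊆ V then (if b ⊆ V then G b else 0) else 0) := sum_comm
      _ = ∑ b ∈ B, p * G b := by
          refine sum_congr rfl fun b hb => ?_
          rw [hpair b hb b hb, union_self, (hB b hb).2]
      _ = p * ∑ b ∈ B, G b := by rw [mul_sum]
  have hS2 : ∑ V ∈ Z.powerset, wt Z η V * ((∑ b ∈ B.filter (fun b => b ⊆ V), G b)
      * ((B.filter (fun b => b ⊆ V)).card : ℝ)) ≤ p * (1 + K * p) * ∑ b ∈ B, G b := by
    calc ∑ V ∈ Z.powerset, wt Z η V * ((∑ b ∈ B.filter (fun b => b ⊆ V), G b)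
          * ((B.filter (fun b => b ⊆ V)).card : ℝ))
        = ∑ V ∈ Z.powerset, ∑ b ∈ B, ∑ b' ∈ B, wt Z η V *
            (if b ⊆ V then (if b' ⊆ V then G b else 0) else 0) := by
          refine sum_congr rfl fun V _ => ?_
          rw [sum_filter, card_filter, Nat.cast_sum, sum_mul_sum, mul_sum]
          refine sum_congr rfl fun b _ => ?_
          rw [mul_sum]
          refine sum_congr rfl fun b' _ => ?_
          by_cases hbV : b ⊆ V
          · by_cases hbV' : b' ⊆ V
            · simp [hbV, hbV']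
            · simp [hbV, hbV']
          · simp [hbV]
      _ = ∑ b ∈ B, ∑ b' ∈ B, ∑ V ∈ Z.powerset, wt Z η V *
            (if b ⊆ V then (if b' ⊆ V then G b else 0) else 0) := by
          rw [sum_comm]
          refine sum_congr rfl fun b _ => ?_
          rw [sum_comm]
      _ = ∑ b ∈ B, ∑ b' ∈ B, η ^ (b ∪ b').card * G b := by
          refine sum_congr rfl fun b hb => sum_congr rfl fun b' hb' => hpair b hb b' hb'
      _ ≤ ∑ b ∈ B, p * (1 + K * p) * G b := by
          refine sum_le_sum fun b hb => ?_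
          rw [← sum_mul]
          refine mul_le_mul_of_nonneg_right ?_ (hG0 b)
          rw [← add_sum_erase B (fun b' => η ^ (b ∪ b').card) hb]
          have h3 : ∑ b' ∈ B.erase b, η ^ (b ∪ b').card = ((B.erase b).card : ℝ) * (p * p) := by
            have h4 : ∀ b' ∈ B.erase b, η ^ (b ∪ b').card = p * p := by
              intro b' hb'
              have hne := (mem_erase.1 hb').1
              have hb'B := (mem_erase.1 hb').2
              rw [card_union_of_disjoint (hdisj b hb b' hb'B hne.symm), (hB b hb).2,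
                (hB b' hb'B).2, pow_add]
            rw [sum_congr rfl h4, sum_const, nsmul_eq_mul]
          rw [h3]
          simp only [union_self]
          rw [(hB b hb).2]
          have h5 : ((B.erase b).card : ℝ) ≤ K := by
            have : (B.erase b).card ≤ B.card := card_le_card (erase_subset _ _)
            exact_mod_cast this.trans hcard
          nlinarith [mul_le_mul_of_nonneg_right h5 (mul_pos hp0 hp0).le]
      _ = p * (1 + K * p) * ∑ b ∈ B, G b := by rw [mul_sum]
  have hSB0 : 0 ≤ ∑ b ∈ B, G b := sum_nonneg fun b _ => hG0 b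
  have hE : p / (1 + K * p) * ∑ b ∈ B, G b ≤ ∑ V ∈ Z.powerset, wt Z η V * G V := by
    calc p / (1 + K * p) * ∑ b ∈ B, G b
        = 2 * θ * (p * ∑ b ∈ B, G b) - θ ^ 2 * (p * (1 + K * p) * ∑ b ∈ B, G b) := by
          rw [hθ]
          field_simp
          ring
      _ ≤ 2 * θ * (∑ V ∈ Z.powerset, wt Z η V * ∑ b ∈ B.filter (fun b => b ⊆ V), G b)
          - θ ^ 2 * (∑ V ∈ Z.powerset, wt Z η V * ((∑ b ∈ B.filter (fun b => b ⊆ V), G b)
            * ((B.filter (fun b => b ⊆ V)).card : ℝ))) := by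
          rw [hS1]
          have := mul_le_mul_of_nonneg_left hS2 (sq_nonneg θ)
          linarith
      _ = ∑ V ∈ Z.powerset, wt Z η V * ((∑ b ∈ B.filter (fun b => b ⊆ V), G b)
            * (2 * θ - θ ^ 2 * ((B.filter (fun b => b ⊆ V)).card : ℝ))) := by
          rw [mul_sum, mul_sum, ← sum_sub_distrib]
          refine sum_congr rfl fun V _ => ?_
          ring
      _ ≤ ∑ V ∈ Z.powerset, wt Z η V * G V :=
          sum_le_sum fun V _ => mul_le_mul_of_nonneg_left (hpt V) (wt_nonneg Z η h0.le h1 V)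
  have hKpos : 0 < (K : ℝ) := by
    by_contra h
    have : (K : ℝ) = 0 := le_antisymm (not_lt.1 h) hK0
    rw [this] at hK
    linarith
  have hfin : 1 ≤ 2 * (K : ℝ) * (p / (1 + K * p)) := by
    rw [mul_div_assoc', le_div_iff₀ hden]
    linarith
  calc ∑ b ∈ B, G b ≤ (2 * (K : ℝ) * (p / (1 + K * p))) * ∑ b ∈ B, G b :=
        le_mul_of_one_le_left hSB0 hfin
    _ = 2 * (K : ℝ) * (p / (1 + K * p) * ∑ b ∈ B, G b) := by ring
    _ ≤ 2 * (K : ℝ) * ∑ V ∈ Z.powerset, wt Z η V * G V :=
        mul_le_mul_of_nonneg_left hE (by positivity)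

end Pool.Agent.Helper34.PN
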