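import Pool.Agent.Helper34.PN.MAXW
import Pool.Agent.Helper34.PN.VAVG
import Pool.Agent.Helper27.PN_CELL
import Pool.Agent.Helper49.PN_FRESH

/-!
A linear `(2m-1)`-uniform hypergraph of bounded maximum degree all of whose restrictions are
2-colourable (edges with at least `m` surviving points get both colours) is sparse.
-/

namespace Pool.Agent.Helper34.PN

open Finset

theorem linear_sparse (m : ℕ) (hm : 2 ≤ m) (κ : ℝ) (hκ : 0 < κ) :
    ∃ K0 : ℕ, ∀ K : ℕ, K0 ≤ K → ∀ (α : Type) [DecidableEq α] (Z : Finset α)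
      (L : Finset (Finset α)),
      (∀ e ∈ L, e ⊆ Z) → (∀ e ∈ L, e.card = 2 * m - 1) →
      (∀ e ∈ L, ∀ e' ∈ L, e ≠ e' → (e ∩ e').card ≤ 1) →
      (∀ x, (L.filter (fun e => x ∈ e)).card ≤ K) →
      Good Z L m → (L.card : ℝ) ≤ κ * K * Z.card := by
  classical
  set δ : ℝ := ((1 / 32 : ℝ) ^ m) ^ 2 / (16 * (m : ℝ) ^ 2) with hδ
  have hm0 : (0 : ℝ) < m := by exact_mod_cast (by omega : 0 < m)
  have hδpos : 0 < δ := by positivity
  set c : ℝ := 42 / κ with hc
  have hcpos : 0 < c := by positivity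
  set η : ℝ := min 1 (κ * δ / (4 * c)) with hη
  have hηpos : 0 < η := lt_min one_pos (by positivity)
  have hη1 : η ≤ 1 := min_le_left _ _
  have hη2 : η ≤ κ * δ / (4 * c) := min_le_right _ _
  obtain ⟨K0, hK0⟩ := exists_nat_ge (1 / η ^ (2 * m - 2))
  refine ⟨K0 + 1, ?_⟩
  intro K hK α _ Z L hLZ hLr hLl hLd hG
  by_contra hcon
  push Not at hcon
  have hKpos : (0 : ℝ) < K := by exact_mod_cast (by omega : 0 < K)
  have hKη : 1 ≤ (K : ℝ) * η ^ (2 * m - 2) := by
    have h1 : 1 / η ^ (2 * m - 2) ≤ (K : ℝ) :=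
      hK0.trans (by exact_mod_cast (by omega : K0 ≤ K))
    rw [div_le_iff₀ (by positivity)] at h1
    exact h1
  have hG' : ∀ Y : Finset α, ∃ R : Finset α, Y ⊆ Z → (R ⊆ Y ∧
      ∀ E ∈ L, m ≤ (E ∩ Y).card → (E ∩ R).Nonempty ∧ (E ∩ (Y \ R)).Nonempty) := by
    intro Y
    by_cases hY : Y ⊆ Z
    · obtain ⟨R, hR⟩ := hG Y hY
      exact ⟨R, fun _ => hR⟩
    · exact ⟨∅, fun h => absurd h hY⟩
  choose R hR using hG'
  let s : ↥(Z.powerset) → α → Fin 3 :=
    fun ω x => if x ∈ ω.1 then (if x ∈ R ω.1 then 1 else 2) else 0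
  haveI : Nonempty ↥(Z.powerset) := ⟨⟨∅, by simp⟩⟩
  set NO : ℝ := (Fintype.card ↥(Z.powerset) : ℝ) with hNO
  have hNOpos : 0 < NO := by
    rw [hNO]
    exact_mod_cast Fintype.card_pos
  obtain ⟨W, hWZ, hWc, hWV⟩ := exists_maxW s Z c hcpos
  set G : α → Finset α → ℝ := fun x V => energy s x (W ∪ V) - energy s x W with hGdef
  have hG0 : ∀ x V, 0 ≤ G x V := fun x V =>
    sub_nonneg.2 (energy_mono s x W (W ∪ V) subset_union_left)
  have hGm : ∀ x U V, U ⊆ V → G x U ≤ G x V := fun x U V h =>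
    sub_le_sub_right (energy_mono s x (W ∪ U) (W ∪ V) (union_subset_union_right h)) _
  -- the sum over the edges at a point
  have hpoint : ∀ x ∈ Z, ∑ e ∈ L.filter (fun e => x ∈ e), G x (e.erase x)
      ≤ 2 * (K : ℝ) * ∑ V ∈ Z.powerset, wt Z η V * G x V := by
    intro x hx
    have hinj : Set.InjOn (fun e : Finset α => e.erase x)
        (L.filter (fun e => x ∈ e) : Finset (Finset α)) := by
      intro e he e' he' hee
      have h1 : x ∈ e := (mem_filter.1 he).2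
      have h2 : x ∈ e' := (mem_filter.1 he').2
      have hee' : e.erase x = e'.erase x := hee
      rw [← insert_erase h1, ← insert_erase h2, hee']
    have h := vavg Z ((L.filter (fun e => x ∈ e)).image (fun e => e.erase x)) (2 * m - 2) K η
      hηpos hη1 ?_ ?_ ?_ hKη (G x) (hG0 x) (hGm x)
    · rw [sum_image hinj] at h
      exact h
    · intro b hb
      obtain ⟨e, he, rfl⟩ := mem_image.1 hb
      have he' := mem_filter.1 he
      refine ⟨(erase_subset _ _).trans (hLZ e he'.1), ?_⟩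
      rw [card_erase_of_mem he'.2, hLr e he'.1]
      omega
    · intro b hb b' hb' hne
      obtain ⟨e, he, rfl⟩ := mem_image.1 hb
      obtain ⟨e', he', rfl⟩ := mem_image.1 hb'
      have h1 := mem_filter.1 he
      have h2 := mem_filter.1 he'
      have hee : e ≠ e' := by
        rintro rfl
        exact hne rfl
      have hc1 := hLl e h1.1 e' h2.1 hee
      rw [disjoint_left]
      intro y hy hy'
      have hyx : y ≠ x := (mem_erase.1 hy).1
      have h3 : ({x, y} : Finset α) ⊆ e ∩ e' := by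
        intro z hz
        rcases mem_insert.1 hz with rfl | hz
        · exact mem_inter.2 ⟨h1.2, h2.2⟩
        · rw [mem_singleton.1 hz]
          exact mem_inter.2 ⟨(mem_erase.1 hy).2, (mem_erase.1 hy').2⟩
      have h4 := card_le_card h3
      rw [card_pair hyx.symm] at h4
      omega
    · exact card_image_le.trans (hLd x)
  -- exchanging the sums
  have hswap : ∀ F : α → Finset α → ℝ,
      ∑ e ∈ L, ∑ x ∈ e, F x e = ∑ x ∈ Z, ∑ e ∈ L.filter (fun e => x ∈ e), F x e := by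
    intro F
    refine sum_comm' ?_
    intro e x
    constructor
    · rintro ⟨he, hx⟩
      exact ⟨mem_filter.2 ⟨he, hx⟩, hLZ e he hx⟩
    · rintro ⟨he, _⟩
      exact ⟨(mem_filter.1 he).1, (mem_filter.1 he).2⟩
  have hsum1 : ∑ e ∈ L, ∑ x ∈ e, G x (e.erase x) ≤ 2 * (K : ℝ) * (c * (η * Z.card) * NO) := by
    rw [hswap (fun x e => G x (e.erase x))]
    refine (sum_le_sum hpoint).trans ?_
    rw [← mul_sum]
    refine mul_le_mul_of_nonneg_left ?_ (by positivity)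
    rw [sum_comm]
    calc ∑ V ∈ Z.powerset, ∑ x ∈ Z, wt Z η V * G x V
        ≤ ∑ V ∈ Z.powerset, wt Z η V * (c * (V.card : ℝ) * NO) := by
          refine sum_le_sum fun V hV => ?_
          rw [← mul_sum]
          exact mul_le_mul_of_nonneg_left (hWV V (mem_powerset.1 hV))
            (wt_nonneg Z η hηpos.le hη1 V)
      _ = c * (∑ V ∈ Z.powerset, wt Z η V * (V.card : ℝ)) * NO := by
          rw [mul_sum, sum_mul]
          exact sum_congr rfl fun V _ => by ring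
      _ = c * (η * Z.card) * NO := by rw [wt_sum_card]
  -- freshness
  set chi : α → ↥(Z.powerset) → ℝ := fun x ω' => if x ∈ ω'.1 then (1 : ℝ) else -1 with hchi
  set Vx : α → ℝ := fun x => ∑ ω : ↥(Z.powerset), (avg s W (chi x) ω) ^ 2 with hVx
  have hVx0 : ∀ x, 0 ≤ Vx x := fun x => sum_nonneg fun ω _ => sq_nonneg _
  have hfresh : ∑ x ∈ Z \ W, Vx x ≤ (5 / 2 : ℝ) * (W.card : ℝ) * NO := fresh Z W hWZ s
  have hswap2 : ∀ (A : Finset α) (F : α → ℝ), (∀ x, 0 ≤ F x) → A ⊆ Z →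
      ∑ e ∈ L, ∑ x ∈ e ∩ A, F x ≤ (K : ℝ) * ∑ x ∈ A, F x := by
    intro A F hF hA
    have h1 : ∑ e ∈ L, ∑ x ∈ e ∩ A, F x
        = ∑ x ∈ A, ∑ e ∈ L.filter (fun e => x ∈ e), F x := by
      refine sum_comm' ?_
      intro e x
      constructor
      · rintro ⟨he, hx⟩
        exact ⟨mem_filter.2 ⟨he, (mem_inter.1 hx).1⟩, (mem_inter.1 hx).2⟩
      · rintro ⟨he, hx⟩
        exact ⟨(mem_filter.1 he).1, mem_inter.2 ⟨(mem_filter.1 he).2, hx⟩⟩
    rw [h1, mul_sum]
    refine sum_le_sum fun x _ => ?_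
    rw [sum_const, nsmul_eq_mul]
    exact mul_le_mul_of_nonneg_right (by exact_mod_cast hLd x) (hF x)
  have hsum2 : ∑ e ∈ L, ∑ x ∈ e ∩ (Z \ W), Vx x ≤ (K : ℝ) * ((5 / 2 : ℝ) * (W.card : ℝ) * NO) :=
    (hswap2 (Z \ W) Vx hVx0 sdiff_subset).trans (mul_le_mul_of_nonneg_left hfresh hKpos.le)
  have hsum3 : ∑ e ∈ L, ((e ∩ W).card : ℝ) ≤ (K : ℝ) * (W.card : ℝ) := by
    have h := hswap2 W (fun _ => (1 : ℝ)) (fun _ => zero_le_one) hWZ
    simpa using h
  -- the good edge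
  have hW1 : (W.card : ℝ) ≤ Z.card / c := by
    rw [le_div_iff₀ hcpos]
    linarith [hWc]
  have hex : ∃ e ∈ L, (1 / δ) * (∑ x ∈ e, G x (e.erase x)) / NO
      + 8 * (∑ x ∈ e ∩ (Z \ W), Vx x) / NO + ((e ∩ W).card : ℝ) < 1 := by
    apply exists_lt_of_sum_lt
    rw [sum_add_distrib, sum_add_distrib, ← sum_div, ← sum_div, ← mul_sum, ← mul_sum]
    have h1 : (1 / δ) * (∑ e ∈ L, ∑ x ∈ e, G x (e.erase x)) / NO
        ≤ κ * K * Z.card / 2 := by
      rw [div_le_iff₀ hNOpos]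
      calc (1 / δ) * (∑ e ∈ L, ∑ x ∈ e, G x (e.erase x))
          ≤ (1 / δ) * (2 * (K : ℝ) * (c * (η * Z.card) * NO)) :=
            mul_le_mul_of_nonneg_left hsum1 (by positivity)
        _ ≤ (1 / δ) * (2 * (K : ℝ) * (c * ((κ * δ / (4 * c)) * Z.card) * NO)) := by
            gcongr
        _ = κ * K * Z.card / 2 * NO := by
            field_simp
            ring
    have h2 : 8 * (∑ e ∈ L, ∑ x ∈ e ∩ (Z \ W), Vx x) / NO ≤ 20 * K * (Z.card / c) := by
      rw [div_le_iff₀ hNOpos]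
      calc 8 * (∑ e ∈ L, ∑ x ∈ e ∩ (Z \ W), Vx x)
          ≤ 8 * ((K : ℝ) * ((5 / 2 : ℝ) * (W.card : ℝ) * NO)) := by linarith
        _ = 20 * K * (W.card : ℝ) * NO := by ring
        _ ≤ 20 * K * (Z.card / c) * NO := by gcongr
    have h3 : ∑ e ∈ L, ((e ∩ W).card : ℝ) ≤ K * (Z.card / c) :=
      hsum3.trans (mul_le_mul_of_nonneg_left hW1 hKpos.le)
    have h4 : 21 * K * (Z.card / c) = κ * K * Z.card / 2 := by
      rw [hc]
      field_simp
      ring
    have h5 : ∑ e ∈ L, (1 : ℝ) = L.card := by simp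
    rw [h5]
    linarith
  obtain ⟨e, heL, he⟩ := hex
  have hn1 : 0 ≤ ∑ x ∈ e, G x (e.erase x) := sum_nonneg fun x _ => hG0 _ _
  have hn2 : 0 ≤ ∑ x ∈ e ∩ (Z \ W), Vx x := sum_nonneg fun x _ => hVx0 _
  have hq1 : 0 ≤ (1 / δ) * (∑ x ∈ e, G x (e.erase x)) / NO := by positivity
  have hq2 : 0 ≤ 8 * (∑ x ∈ e ∩ (Z \ W), Vx x) / NO := by positivity
  have hq3 : (0 : ℝ) ≤ ((e ∩ W).card : ℝ) := by positivity
  have heW : e ∩ W = ∅ := by
    have h1 : ((e ∩ W).card : ℝ) < 1 := by linarith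
    have h2 : (e ∩ W).card < 1 := by exact_mod_cast h1
    exact card_eq_zero.1 (by omega)
  have heZW : e ∩ (Z \ W) = e := by
    ext y
    simp only [mem_inter, mem_sdiff]
    constructor
    · exact fun h => h.1
    · intro h
      refine ⟨h, hLZ e heL h, fun hW => ?_⟩
      have : y ∈ e ∩ W := mem_inter.2 ⟨h, hW⟩
      rw [heW] at this
      exact absurd this (notMem_empty _)
  have hc1 : ∑ x ∈ e, (energy s x (W ∪ e.erase x) - energy s x W) ≤ δ * NO := by
    have h1 : (1 / δ) * (∑ x ∈ e, G x (e.erase x)) / NO ≤ 1 := by linarith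
    rw [div_le_iff₀ hNOpos, one_div, inv_mul_le_iff₀ hδpos, one_mul] at h1
    exact h1
  have hchi2 : ∀ x, (fun ω' : ↥(Z.powerset) => 1 - 2 * ind s x 0 ω') = chi x := by
    intro x
    funext ω'
    by_cases hx : x ∈ ω'.1
    · have h1 : s ω' x ≠ 0 := by
        change (if x ∈ ω'.1 then (if x ∈ R ω'.1 then (1 : Fin 3) else 2) else 0) ≠ 0
        rw [if_pos hx]
        split_ifs <;> decide
      simp [ind, h1, hchi, hx]
    · have h1 : s ω' x = 0 := by
        change (if x ∈ ω'.1 then (if x ∈ R ω'.1 then (1 : Fin 3) else 2) else 0) = 0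
        rw [if_neg hx]
      simp [ind, h1, hchi, hx]
      norm_num
  have hc2 : ∑ x ∈ e, ∑ ω : ↥(Z.powerset), (avg s W (fun ω' => 1 - 2 * ind s x 0 ω') ω) ^ 2
      ≤ (1 / 8 : ℝ) * NO := by
    have h1 : 8 * (∑ x ∈ e ∩ (Z \ W), Vx x) / NO ≤ 1 := by linarith
    rw [div_le_iff₀ hNOpos, heZW] at h1
    have h2 : ∑ x ∈ e, ∑ ω : ↥(Z.powerset),
        (avg s W (fun ω' => 1 - 2 * ind s x 0 ω') ω) ^ 2 = ∑ x ∈ e, Vx x := by
      refine sum_congr rfl fun x _ => ?_
      rw [hchi2 x]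
    rw [h2]
    linarith
  obtain ⟨ω, a, ha0, hcard, hall⟩ := cell m (by omega) s W e (hLr e heL) hc1 hc2
  have hYZ : ω.1 ⊆ Z := mem_powerset.1 ω.2
  have hRR := (hR ω.1 hYZ).2 e heL ?_
  · obtain ⟨⟨x1, hx1⟩, ⟨x2, hx2⟩⟩ := hRR
    have hx1' := mem_inter.1 hx1
    have hx2' := mem_inter.1 hx2
    have hx2'' := mem_sdiff.1 hx2'.2
    have hs1 : s ω x1 = 1 := by
      change (if x1 ∈ ω.1 then (if x1 ∈ R ω.1 then (1 : Fin 3) else 2) else 0) = 1
      rw [if_pos ((hR ω.1 hYZ).1 hx1'.2), if_pos hx1'.2]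
    have hs2 : s ω x2 = 2 := by
      change (if x2 ∈ ω.1 then (if x2 ∈ R ω.1 then (1 : Fin 3) else 2) else 0) = 2
      rw [if_pos hx2''.1, if_neg hx2''.2]
    have h1 := hall x1 hx1'.1
    have h2 := hall x2 hx2'.1
    rw [hs1] at h1
    rw [hs2] at h2
    have h3 : (1 : Fin 3) = a := h1.resolve_right (by decide)
    have h4 : (2 : Fin 3) = a := h2.resolve_right (by decide)
    rw [← h4] at h3
    exact absurd h3 (by decide)
  · refine hcard.trans (card_le_card ?_)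
    intro x hx
    have hx' := mem_filter.1 hx
    refine mem_inter.2 ⟨hx'.1, ?_⟩
    by_contra hxn
    apply ha0
    rw [← hx'.2]
    change (if x ∈ ω.1 then (if x ∈ R ω.1 then (1 : Fin 3) else 2) else 0) = 0
    rw [if_neg hxn]

end Pool.Agent.Helper34.PN
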