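import Pool.Agent.Helper34.PN.AVG

/-!
A set of revealed points which is maximal for energy minus cost.
-/

namespace Pool.Agent.Helper34.PN

open Finset

theorem exists_maxW {Ω α : Type} [Fintype Ω] [Nonempty Ω] [DecidableEq α]
    (s : Ω → α → Fin 3) (Z : Finset α) (c : ℝ) (hc : 0 < c) :
    ∃ W : Finset α, W ⊆ Z ∧ c * (W.card : ℝ) ≤ (Z.card : ℝ) ∧
      ∀ V : Finset α, V ⊆ Z →
        ∑ x ∈ Z, (energy s x (W ∪ V) - energy s x W)
          ≤ c * (V.card : ℝ) * (Fintype.card Ω : ℝ) := by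
  set N : ℝ := (Fintype.card Ω : ℝ) with hN
  have hNpos : 0 < N := by
    rw [hN]
    exact_mod_cast Fintype.card_pos
  obtain ⟨W, hWmem, hWmax⟩ := exists_max_image Z.powerset
    (fun W => ∑ x ∈ Z, energy s x W - c * (W.card : ℝ) * N) ⟨∅, empty_mem_powerset _⟩
  have hWZ : W ⊆ Z := mem_powerset.1 hWmem
  refine ⟨W, hWZ, ?_, ?_⟩
  · have h1 := hWmax ∅ (empty_mem_powerset _)
    have h2 : 0 ≤ ∑ x ∈ Z, energy s x (∅ : Finset α) :=
      sum_nonneg fun x _ => energy_nonneg s x ∅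
    have h3 : ∑ x ∈ Z, energy s x W ≤ (Z.card : ℝ) * N := by
      calc ∑ x ∈ Z, energy s x W ≤ ∑ _x ∈ Z, N := sum_le_sum fun x _ => energy_le s x W
        _ = (Z.card : ℝ) * N := by rw [sum_const, nsmul_eq_mul]
    simp only [card_empty, Nat.cast_zero, mul_zero, zero_mul, sub_zero] at h1
    have h4 : c * (W.card : ℝ) * N ≤ (Z.card : ℝ) * N := by linarith
    exact le_of_mul_le_mul_right h4 hNpos
  · intro V hV
    have h1 := hWmax (W ∪ V) (mem_powerset.2 (union_subset hWZ hV))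
    have h2 : ((W ∪ V).card : ℝ) ≤ (W.card : ℝ) + (V.card : ℝ) := by
      exact_mod_cast card_union_le W V
    have h3 : c * ((W ∪ V).card : ℝ) * N ≤ c * ((W.card : ℝ) + (V.card : ℝ)) * N := by
      gcongr
    rw [sum_sub_distrib]
    linarith [h1, h3, mul_add c (W.card : ℝ) (V.card : ℝ),
      add_mul (c * (W.card : ℝ)) (c * (V.card : ℝ)) N]

end Pool.Agent.Helper34.PN
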