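import Pool.Agent.Helper34.PN.LC
import Pool.Agent.Helper55.PN_NETC
import Pool.Agent.Helper95.PN_EXTR

/-!
One scale: a maximal separated family of bounded degree, its saturated points and the nets
inside its members.
-/

namespace Pool.Agent.Helper34.PN

open Finset

theorem Good.mono {α : Type} [DecidableEq α] {X A : Finset α} {H H' : Finset (Finset α)}
    {m : ℕ} (h : Good X H m) (hA : A ⊆ X) (hH : H' ⊆ H) : Good A H' m := by
  intro Y hY
  obtain ⟨R, hR, hR2⟩ := h Y (hY.trans hA)
  exact ⟨R, hR, fun E hE hm => hR2 E (hH hE) hm⟩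

/-- the trace of a good family on a subset is good -/
theorem Good.trace {α : Type} [DecidableEq α] {X A : Finset α} {H : Finset (Finset α)}
    {m : ℕ} (h : Good X H m) (hA : A ⊆ X) (L : Finset (Finset α))
    (hL : ∀ e ∈ L, ∃ E ∈ H, e = E ∩ A) : Good A L m := by
  intro Y hY
  obtain ⟨R, hR, hR2⟩ := h Y (hY.trans hA)
  refine ⟨R, hR, fun e he hm => ?_⟩
  obtain ⟨E, hE, rfl⟩ := hL e he
  have h1 : E ∩ A ∩ Y = E ∩ Y := by
    rw [inter_assoc, inter_eq_right.2 hY]
  have h2 : E ∩ A ∩ R = E ∩ R := by
    rw [inter_assoc, inter_eq_right.2 (hR.trans hY)]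
  have h3 : E ∩ A ∩ (Y \ R) = E ∩ (Y \ R) := by
    rw [inter_assoc, inter_eq_right.2 (sdiff_subset.trans hY)]
  rw [h1] at hm
  rw [h2, h3]
  exact hR2 E hE hm

theorem one_scale (m : ℕ) (hm : 2 ≤ m) :
    ∃ s0 c3 : ℕ, ∀ (α : Type) [DecidableEq α] (X : Finset α) (H : Finset (Finset α)) (s : ℕ),
      s0 ≤ s → (∀ E ∈ H, E ⊆ X) → Good X H m → (∀ E ∈ H, s ≤ E.card ∧ E.card ≤ 2 * s) →
      ∃ Sat T : Finset α, Sat ⊆ X ∧ T ⊆ X ∧ 32 * Sat.card ≤ X.card ∧
        s * T.card ≤ c3 * X.card ∧
        ∀ E ∈ H, (E ∩ T).Nonempty ∨ s ≤ 2 * (E ∩ Sat).card := by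
  classical
  have hkap : 0 < kap m := by
    unfold kap
    positivity
  obtain ⟨K0, hK0⟩ := linear_sparse m hm (kap m / 16) (by positivity)
  set K : ℕ := K0 + 1 with hK
  set C' : ℕ := 4 * K * (2 * m - 1) ^ 2 with hC'
  have hr1 : 1 ≤ (2 * m - 1) ^ 2 := Nat.one_le_pow _ _ (by omega)
  have hC'2 : 2 ≤ C' := by
    have : 4 * K * 1 ≤ 4 * K * (2 * m - 1) ^ 2 := Nat.mul_le_mul_left _ hr1
    omega
  obtain ⟨c2, hc2⟩ := net_const m (2 * C') (by omega)
  refine ⟨8 * m, c2 * K, ?_⟩
  intro α _ X H s hs hHX hG hHs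
  have hs1 : 1 ≤ s := by omega
  -- admissible families
  let adm : Finset (Finset α × Finset α) → Prop := fun P =>
    (∀ p ∈ P, p.1 ∈ H ∧ p.2 ⊆ p.1 ∧ s ≤ 2 * p.2.card) ∧
    (∀ p ∈ P, ∀ p' ∈ P, p ≠ p' → C' * (p.2 ∩ p'.2).card ≤ s) ∧
    (∀ x, (P.filter (fun p => x ∈ p.2)).card ≤ K)
  have hadm0 : adm ∅ := by
    refine ⟨by simp, by simp, by simp⟩
  obtain ⟨P, hPmem, hPmax⟩ := exists_max_image
    (((H ×ˢ X.powerset).powerset).filter adm) (fun P => P.card)
    ⟨∅, mem_filter.2 ⟨empty_mem_powerset _, hadm0⟩⟩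
  obtain ⟨hPsub, hPadm⟩ := mem_filter.1 hPmem
  obtain ⟨hP1, hP2, hP3⟩ := hPadm
  -- the family is small
  have hPcard : 64 * (s : ℝ) * P.card ≤ K * X.card := by
    obtain ⟨Z, hZX, L, hL1, hL2, hL3, hL4, hL5⟩ := extract m K s hm hs X P
      (fun p hp => ⟨hHX _ (hP1 p hp).1, (hP1 p hp).2.1, (hHs _ (hP1 p hp).1).2, (hP1 p hp).2.2⟩)
      (fun p hp p' hp' hne => hP2 p hp p' hp' hne) hP3 (kap m / 16 * K)
    have hgoodL : Good Z L m := hG.trace hZX L (fun e he => by
      obtain ⟨p, hp, rfl⟩ := hL1 e he
      exact ⟨p.1, (hP1 p hp).1, rfl⟩)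
    have h1 := hK0 K (by omega) α Z L (fun e he => by
      obtain ⟨p, _, rfl⟩ := hL1 e he
      exact inter_subset_right) hL2 hL3 hL4 hgoodL
    have h2 : kap m * (P.card : ℝ) ≤ kap m / 16 * K * (X.card : ℝ) / (4 * s) := by linarith
    have hs0 : (0 : ℝ) < s := by exact_mod_cast hs1
    rw [le_div_iff₀ (by positivity)] at h2
    have h3 : kap m * (64 * (s : ℝ) * P.card) ≤ kap m * (K * X.card) := by linarith
    exact le_of_mul_le_mul_left h3 hkap
  have hPcardN : 64 * s * P.card ≤ K * X.card := by exact_mod_cast hPcard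
  set Sat : Finset α := X.filter (fun x => K ≤ (P.filter (fun p => x ∈ p.2)).card) with hSat
  have hSatX : Sat ⊆ X := filter_subset _ _
  have hSatcard : 32 * Sat.card ≤ X.card := by
    have h1 : K * Sat.card ≤ ∑ p ∈ P, p.2.card := by
      calc K * Sat.card = ∑ x ∈ Sat, K := by rw [sum_const, smul_eq_mul, mul_comm]
        _ ≤ ∑ x ∈ Sat, (P.filter (fun p => x ∈ p.2)).card :=
            sum_le_sum fun x hx => (mem_filter.1 hx).2
        _ = ∑ x ∈ Sat, ∑ p ∈ P, (if x ∈ p.2 then 1 else 0) := by
            refine sum_congr rfl fun x _ => ?_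
            rw [card_filter]
        _ = ∑ p ∈ P, ∑ x ∈ Sat, (if x ∈ p.2 then 1 else 0) := sum_comm
        _ ≤ ∑ p ∈ P, p.2.card := by
            refine sum_le_sum fun p _ => ?_
            rw [← card_filter]
            refine card_le_card ?_
            intro x hx
            exact (mem_filter.1 hx).2
    have h2 : ∑ p ∈ P, p.2.card ≤ P.card * (2 * s) := by
      have := sum_le_card_nsmul P (fun p => p.2.card) (2 * s) (fun p hp =>
        (card_le_card (hP1 p hp).2.1).trans (hHs _ (hP1 p hp).1).2)
      simpa using this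
    have h3 : K * (32 * Sat.card) ≤ K * X.card := by
      calc K * (32 * Sat.card) = 32 * (K * Sat.card) := by ring
        _ ≤ 32 * (P.card * (2 * s)) := Nat.mul_le_mul_left _ (h1.trans h2)
        _ = 64 * s * P.card := by ring
        _ ≤ K * X.card := hPcardN
    exact Nat.le_of_mul_le_mul_left h3 (by omega)
  -- the nets inside the members
  have hnet : ∀ p : Finset α × Finset α, ∃ T : Finset α, p ∈ P →
      (T ⊆ p.2 ∧ T.card ≤ c2 ∧ ∀ E ∈ H, s ≤ C' * (E ∩ p.2).card → (E ∩ T).Nonempty) := by
    intro p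
    by_cases hp : p ∈ P
    · obtain ⟨T, hT1, hT2, hT3⟩ := hc2 α p.2
        (H.filter (fun E => s ≤ C' * (E ∩ p.2).card))
        (hG.mono ((hP1 p hp).2.1.trans (hHX _ (hP1 p hp).1)) (filter_subset _ _))
        (fun E hE => by
          have h1 := (mem_filter.1 hE).2
          have h2 : p.2.card ≤ 2 * s :=
            (card_le_card (hP1 p hp).2.1).trans (hHs _ (hP1 p hp).1).2
          calc p.2.card ≤ 2 * s := h2
            _ ≤ 2 * (C' * (E ∩ p.2).card) := Nat.mul_le_mul_left _ h1
            _ = 2 * C' * (E ∩ p.2).card := by ring)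
        (fun E hE => by
          have h1 := (mem_filter.1 hE).2
          rw [← card_pos]
          by_contra h0
          have h00 : (E ∩ p.2).card = 0 := by omega
          rw [h00] at h1
          omega)
      exact ⟨T, fun _ => ⟨hT1, hT2, fun E hE h => hT3 E (mem_filter.2 ⟨hE, h⟩)⟩⟩
    · exact ⟨∅, fun h => absurd h hp⟩
  choose T hT using hnet
  refine ⟨Sat, P.biUnion T, hSatX, ?_, hSatcard, ?_, ?_⟩
  · intro x hx
    obtain ⟨p, hp, hxp⟩ := mem_biUnion.1 hx
    exact hHX _ (hP1 p hp).1 ((hP1 p hp).2.1 ((hT p hp).1 hxp))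
  · have h1 : (P.biUnion T).card ≤ P.card * c2 :=
      card_biUnion_le_card_mul _ _ _ (fun p hp => (hT p hp).2.1)
    calc s * (P.biUnion T).card ≤ s * (P.card * c2) := Nat.mul_le_mul_left _ h1
      _ ≤ 64 * s * P.card * c2 := by
          have : s * (P.card * c2) = s * P.card * c2 := by ring
          rw [this]
          refine Nat.mul_le_mul_right _ ?_
          have : 64 * s * P.card = s * P.card + 63 * (s * P.card) := by ring
          omega
      _ ≤ K * X.card * c2 := Nat.mul_le_mul_right _ hPcardN
      _ = c2 * K * X.card := by ring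
  · intro E hE
    by_cases hnear : ∃ p ∈ P, s ≤ C' * (E ∩ p.2).card
    · obtain ⟨p, hp, h⟩ := hnear
      left
      obtain ⟨y, hy⟩ := (hT p hp).2.2 E hE h
      have hy' := mem_inter.1 hy
      exact ⟨y, mem_inter.2 ⟨hy'.1, mem_biUnion.2 ⟨p, hp, hy'.2⟩⟩⟩
    · right
      push Not at hnear
      set A : Finset α := E \ Sat with hA
      have hAcard : 2 * A.card < s := by
        by_contra hcon
        push Not at hcon
        have hnotin : (E, A) ∉ P := by
          intro hin
          have h1 := hnear _ hin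
          have h2 : E ∩ A = A := inter_eq_right.2 sdiff_subset
          have h3 : C' * (E ∩ A).card < s := h1
          rw [h2] at h3
          have h4 : 2 * A.card ≤ C' * A.card := Nat.mul_le_mul_right _ hC'2
          omega
        have hadm' : adm (insert (E, A) P) := by
          refine ⟨?_, ?_, ?_⟩
          · intro p hp
            rcases mem_insert.1 hp with rfl | hp
            · exact ⟨hE, sdiff_subset, hcon⟩
            · exact hP1 p hp
          · intro p hp p' hp' hne
            rcases mem_insert.1 hp with rfl | hp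
            · rcases mem_insert.1 hp' with rfl | hp'
              · exact absurd rfl hne
              · have h1 := hnear p' hp'
                have h2 : (A ∩ p'.2).card ≤ (E ∩ p'.2).card :=
                  card_le_card (inter_subset_inter_right sdiff_subset)
                exact (Nat.mul_le_mul_left _ h2).trans h1.le
            · rcases mem_insert.1 hp' with rfl | hp'
              · have h1 := hnear p hp
                have h2 : (p.2 ∩ A).card ≤ (E ∩ p.2).card := by
                  rw [inter_comm]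
                  exact card_le_card (inter_subset_inter_right sdiff_subset)
                exact (Nat.mul_le_mul_left _ h2).trans h1.le
              · exact hP2 p hp p' hp' hne
          · intro x
            by_cases hx : x ∈ A
            · have hx' := mem_sdiff.1 hx
              have hxX : x ∈ X := hHX E hE hx'.1
              have h1 : (P.filter (fun p => x ∈ p.2)).card < K := by
                by_contra h
                push Not at h
                exact hx'.2 (mem_filter.2 ⟨hxX, h⟩)
              rw [filter_insert, if_pos hx]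
              refine (card_insert_le _ _).trans ?_
              omega
            · rw [filter_insert, if_neg hx]
              exact hP3 x
        have hmem : insert (E, A) P ∈ ((H ×ˢ X.powerset).powerset).filter adm := by
          refine mem_filter.2 ⟨mem_powerset.2 ?_, hadm'⟩
          intro p hp
          rcases mem_insert.1 hp with rfl | hp
          · exact mem_product.2 ⟨hE, mem_powerset.2 (sdiff_subset.trans (hHX E hE))⟩
          · exact mem_powerset.1 hPsub hp
        have h1 := hPmax _ hmem
        rw [card_insert_of_notMem hnotin] at h1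
        omega
      have h1 := (hHs E hE).1
      have h2 : (E \ Sat).card + (E ∩ Sat).card = E.card := card_sdiff_add_card_inter E Sat
      have h3 : A.card = (E \ Sat).card := rfl
      omega

end Pool.Agent.Helper34.PN
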