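import Pool.Agent.Helper95.PN.Stmts

/-!
# Row PK: packing
-/

set_option autoImplicit false

namespace Pool.Agent.Helper95.PW

open Finset

/-- the cube of side `4 d k` around `y` -/
def pk34P {M : ℕ} (X : Fin M → R3) (d : ℝ) (y : R3) (k : ℕ) (j : Fin M) : Prop :=
  ∀ i, -(k : ℝ) ≤ (y i - X j i) / (2 * d) ∧ (y i - X j i) / (2 * d) < k

theorem pk34_nr_sub {a b : R3} {d : ℝ} (hd : 0 < d) (h : ∀ i, |a i - b i| < 2 * d) :
    nr (a - b) < 4 * d := by
  unfold nr
  rw [Real.sqrt_lt' (by positivity)]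
  have h1 : ∀ i, (a i - b i) ^ 2 < (2 * d) ^ 2 := fun i =>
    sq_lt_sq.2 (by rw [abs_of_pos (show (0 : ℝ) < 2 * d by positivity)]; exact h i)
  have h2 := h1 0
  have h3 := h1 1
  have h4 := h1 2
  simp only [Pi.sub_apply]
  nlinarith [mul_pos hd hd]

open scoped Classical in
theorem pk34_count {M : ℕ} (X : Fin M → R3) (d : ℝ) (y : R3) (k : ℕ) (hd : 0 < d)
    (hS : Sep X d) : (univ.filter (pk34P X d y k)).card ≤ (2 * k) ^ 3 := by
  let B : Finset (Fin 3 → ℤ) := Fintype.piFinset (fun _ => Finset.Ico (-(k : ℤ)) k)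
  have hB : B.card = (2 * k) ^ 3 := by
    have h1 : ((k : ℤ) + (k : ℤ)).toNat = 2 * k := by omega
    simp [B, Fintype.card_piFinset, Int.card_Ico, h1]
  rw [← hB]
  apply Finset.card_le_card_of_injOn (fun j => fun i => ⌊(y i - X j i) / (2 * d)⌋)
  · intro j hj
    have hj' : pk34P X d y k j := by
      have := Finset.mem_coe.1 hj
      exact (Finset.mem_filter.1 this).2
    rw [Finset.mem_coe, Fintype.mem_piFinset]
    intro i
    rw [Finset.mem_Ico]
    obtain ⟨h1, h2⟩ := hj' i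
    refine ⟨?_, ?_⟩
    · rw [Int.le_floor]
      push_cast
      exact h1
    · rw [Int.floor_lt]
      push_cast
      exact h2
  · intro j _ j' _ hjj
    by_contra hne
    have h1 := hS j j' hne
    have h2 : nr (X j - X j') < 4 * d := by
      apply pk34_nr_sub hd
      intro i
      have h3 : ⌊(y i - X j i) / (2 * d)⌋ = ⌊(y i - X j' i) / (2 * d)⌋ := congrFun hjj i
      have h4 := Int.abs_sub_lt_one_of_floor_eq_floor h3
      have h5 : (y i - X j i) / (2 * d) - (y i - X j' i) / (2 * d) =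
          -((X j i - X j' i) / (2 * d)) := by ring
      rw [h5, abs_neg, abs_div, abs_of_pos (show (0 : ℝ) < 2 * d by positivity),
        div_lt_one (by positivity)] at h4
      exact h4
    linarith

theorem pk34_far {M : ℕ} (X : Fin M → R3) (d : ℝ) (y : R3) (k : ℕ) (j : Fin M) (hd : 0 < d)
    (h : ¬ pk34P X d y k j) : 2 * d * k ≤ nr (y - X j) := by
  unfold pk34P at h
  rw [not_forall] at h
  obtain ⟨i, hi⟩ := h
  have h1 : (2 * d * k) ^ 2 ≤ (y i - X j i) ^ 2 := by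
    have hk : (0 : ℝ) ≤ 2 * d * k := by positivity
    rcases lt_or_ge ((y i - X j i) / (2 * d)) (-(k : ℝ)) with h2 | h2
    · rw [div_lt_iff₀ (by positivity)] at h2
      have h3 : 2 * d * k ≤ -(y i - X j i) := by linarith
      have h4 := mul_self_le_mul_self hk h3
      nlinarith
    · have h3 : (k : ℝ) ≤ (y i - X j i) / (2 * d) := by
        by_contra h4
        exact hi ⟨h2, not_le.1 h4⟩
      rw [le_div_iff₀ (by positivity)] at h3
      have h4 := mul_self_le_mul_self hk (show 2 * d * k ≤ y i - X j i by linarith)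
      nlinarith
  unfold nr
  apply Real.le_sqrt_of_sq_le
  refine h1.trans ?_
  simp only [Pi.sub_apply]
  fin_cases i
  · simp only [Fin.zero_eta]
    nlinarith [sq_nonneg (y 1 - X j 1), sq_nonneg (y 2 - X j 2)]
  · simp only [Fin.mk_one]
    nlinarith [sq_nonneg (y 0 - X j 0), sq_nonneg (y 2 - X j 2)]
  · have h5 : (y 2 - X j 2) ^ 2 ≤
        (y 0 - X j 0) ^ 2 + (y 1 - X j 1) ^ 2 + (y 2 - X j 2) ^ 2 := by
      nlinarith [sq_nonneg (y 0 - X j 0), sq_nonneg (y 1 - X j 1)]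
    exact h5

open scoped Classical in
theorem pk34_one {M : ℕ} (X : Fin M → R3) (d : ℝ) (y : R3) (j : Fin M) (hd : 0 < d)
    (hj : d / 2 ≤ nr (y - X j)) (K : ℕ) :
    1 / nr (y - X j) ≤ 2 / d * (1 / ((K : ℝ) + 1) +
      ∑ k ∈ range K, if pk34P X d y (k + 1) j then 1 / (((k : ℝ) + 1) * (k + 2)) else 0) := by
  induction K with
  | zero =>
    simp only [Nat.cast_zero, zero_add, div_one, range_zero, sum_empty, add_zero, mul_one]
    rw [div_le_div_iff₀ (by linarith) hd]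
    linarith
  | succ K ih =>
    rw [sum_range_succ]
    by_cases hP : pk34P X d y (K + 1) j
    · rw [if_pos hP]
      refine ih.trans (le_of_eq ?_)
      push_cast
      have h1 : (1 : ℝ) / ((K : ℝ) + 1) = 1 / ((K : ℝ) + 1 + 1) + 1 / (((K : ℝ) + 1) * (K + 2)) := by
        field_simp
        ring
      rw [h1]
      ring
    · rw [if_neg hP, add_zero]
      have h1 := pk34_far X d y (K + 1) j hd hP
      push_cast at h1 ⊢
      have h2 : (0 : ℝ) ≤ ∑ k ∈ range K,
          if pk34P X d y (k + 1) j then 1 / (((k : ℝ) + 1) * (k + 2)) else 0 := by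
        apply sum_nonneg
        intro k _
        split_ifs
        · positivity
        · exact le_rfl
      have h3 : 1 / nr (y - X j) ≤ 2 / d * (1 / ((K : ℝ) + 1 + 1)) := by
        have hK : (0 : ℝ) ≤ K := Nat.cast_nonneg K
        have h4 : 0 < 2 * d * ((K : ℝ) + 1) := by positivity
        calc 1 / nr (y - X j) ≤ 1 / (2 * d * ((K : ℝ) + 1)) := one_div_le_one_div_of_le h4 h1
          _ ≤ 2 / d * (1 / ((K : ℝ) + 1 + 1)) := by
            rw [div_mul_div_comm, mul_one, div_le_div_iff₀ h4 (by positivity)]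
            nlinarith [mul_nonneg hd.le hK]
      refine h3.trans ?_
      apply mul_le_mul_of_nonneg_left _ (by positivity)
      linarith

open scoped Classical in
theorem pk34_sum {M : ℕ} (X : Fin M → R3) (d : ℝ) (y : R3) (hd : 0 < d) (hS : Sep X d) (K : ℕ) :
    far1 X d y ≤ 2 / d * ((M : ℝ) / ((K : ℝ) + 1) + 8 * (K : ℝ) ^ 2) := by
  have h1 : far1 X d y ≤ ∑ j : Fin M, 2 / d * (1 / ((K : ℝ) + 1) +
      ∑ k ∈ range K, if pk34P X d y (k + 1) j then 1 / (((k : ℝ) + 1) * (k + 2)) else 0) := by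
    unfold far1
    apply sum_le_sum
    intro j _
    split_ifs with hj
    · exact pk34_one X d y j hd hj K
    · have h2 : (0 : ℝ) ≤ ∑ k ∈ range K,
          if pk34P X d y (k + 1) j then 1 / (((k : ℝ) + 1) * (k + 2)) else 0 := by
        apply sum_nonneg
        intro k _
        split_ifs
        · positivity
        · exact le_rfl
      positivity
  refine h1.trans ?_
  rw [← mul_sum, sum_add_distrib, sum_comm]
  apply mul_le_mul_of_nonneg_left _ (by positivity)
  have h2 : ∑ _j : Fin M, 1 / ((K : ℝ) + 1) = (M : ℝ) / ((K : ℝ) + 1) := by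
    rw [sum_const, card_univ, Fintype.card_fin, nsmul_eq_mul]
    ring
  rw [h2]
  have h3 : ∀ k ∈ range K, (∑ j : Fin M,
      if pk34P X d y (k + 1) j then 1 / (((k : ℝ) + 1) * (k + 2)) else 0) ≤ 8 * (K : ℝ) := by
    intro k hk
    rw [← sum_filter, sum_const, nsmul_eq_mul]
    have h4 : ((univ.filter (pk34P X d y (k + 1))).card : ℝ) ≤ (2 * ((k : ℝ) + 1)) ^ 3 := by
      have := pk34_count X d y (k + 1) hd hS
      exact_mod_cast this
    have h5 : (k : ℝ) + 1 ≤ K := by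
      have := mem_range.1 hk
      exact_mod_cast this
    have hk0 : (0 : ℝ) ≤ k := Nat.cast_nonneg k
    calc ((univ.filter (pk34P X d y (k + 1))).card : ℝ) * (1 / (((k : ℝ) + 1) * (k + 2)))
        ≤ (2 * ((k : ℝ) + 1)) ^ 3 * (1 / (((k : ℝ) + 1) * (k + 2))) :=
          mul_le_mul_of_nonneg_right h4 (by positivity)
      _ = 8 * (((k : ℝ) + 1) * (((k : ℝ) + 1) / (k + 2))) := by
          field_simp
          ring
      _ ≤ 8 * (((k : ℝ) + 1) * 1) := by
          have h6 : ((k : ℝ) + 1) / (k + 2) ≤ 1 := by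
            rw [div_le_one (by positivity)]
            linarith
          gcongr
      _ ≤ 8 * K := by linarith
  have h4 := sum_le_sum h3
  rw [sum_const, card_range, nsmul_eq_mul] at h4
  have h5 : (K : ℝ) * (8 * K) = 8 * (K : ℝ) ^ 2 := by ring
  rw [h5] at h4
  linarith

theorem st_PK : ST_PK := by
  refine ⟨18, by norm_num, ?_⟩
  intro M X d y hd hS
  set t : ℝ := (M : ℝ) ^ (1 / 3 : ℝ) with ht
  have ht0 : 0 ≤ t := by positivity
  have hM : (0 : ℝ) ≤ M := Nat.cast_nonneg M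
  have ht3 : t ^ 3 = M := by
    rw [ht, ← Real.rpow_natCast, ← Real.rpow_mul hM]
    norm_num
  have ht2 : (M : ℝ) ^ (2 / 3 : ℝ) = t ^ 2 := by
    rw [ht, ← Real.rpow_natCast, ← Real.rpow_mul hM]
    norm_num
  have h1 := pk34_sum X d y hd hS ⌊t⌋₊
  rw [ht2]
  refine h1.trans ?_
  have hf1 : (⌊t⌋₊ : ℝ) ≤ t := Nat.floor_le ht0
  have hf2 : t ≤ (⌊t⌋₊ : ℝ) + 1 := (Nat.lt_floor_add_one t).le
  have hf0 : (0 : ℝ) ≤ (⌊t⌋₊ : ℝ) := Nat.cast_nonneg _
  have h2 : (M : ℝ) / ((⌊t⌋₊ : ℝ) + 1) ≤ t ^ 2 := by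
    rw [div_le_iff₀ (by positivity), ← ht3]
    have := mul_le_mul_of_nonneg_left hf2 (sq_nonneg t)
    nlinarith
  have h3 : (⌊t⌋₊ : ℝ) ^ 2 ≤ t ^ 2 := by
    have := mul_self_le_mul_self hf0 hf1
    nlinarith
  have h4 : (M : ℝ) / ((⌊t⌋₊ : ℝ) + 1) + 8 * (⌊t⌋₊ : ℝ) ^ 2 ≤ 9 * t ^ 2 := by linarith
  calc 2 / d * ((M : ℝ) / ((⌊t⌋₊ : ℝ) + 1) + 8 * (⌊t⌋₊ : ℝ) ^ 2) ≤ 2 / d * (9 * t ^ 2) :=
        mul_le_mul_of_nonneg_left h4 (by positivity)
    _ = 18 * t ^ 2 / d := by ring

end Pool.Agent.Helper95.PW
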